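import Mathlib

set_option autoImplicit false

open Polynomial NumberField

namespace Pool.Agent.Lib.MP_ab6cf3_nt.Variants.UnequalDegrees

/-! ### complex estimates -/

/-- an upper bound for a complex polynomial on a disc of radius at least one -/
theorem upperC (P : ℂ[X]) (N : ℕ) (hN : P.natDegree ≤ N) :
    ∃ A : ℝ, 0 ≤ A ∧ ∀ (z : ℂ) (M : ℝ), 1 ≤ M → ‖z‖ ≤ M → ‖eval z P‖ ≤ A * M ^ N := by
  refine ⟨∑ i ∈ Finset.range (P.natDegree + 1), ‖P.coeff i‖,
    Finset.sum_nonneg fun _ _ => norm_nonneg _, ?_⟩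
  intro z M hM hz
  rw [eval_eq_sum_range, Finset.sum_mul]
  refine (norm_sum_le _ _).trans (Finset.sum_le_sum fun i hi => ?_)
  have hi' : i ≤ N := by
    have := Finset.mem_range.mp hi
    omega
  rw [norm_mul, norm_pow]
  refine mul_le_mul_of_nonneg_left ?_ (norm_nonneg _)
  exact (pow_le_pow_left₀ (norm_nonneg _) hz i).trans (pow_le_pow_right₀ hM hi')

/-- a lower bound, with one constant -/
theorem lowerC (f : ℂ[X]) (hd : 1 ≤ f.natDegree) :
    ∃ c : ℝ, 1 ≤ c ∧ ∀ z : ℂ, 2 * c ^ 2 ≤ ‖z‖ → ‖z‖ ^ f.natDegree ≤ 2 * c * ‖eval z f‖ := by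
  obtain ⟨A, hA0, hA⟩ := upperC f.eraseLead (f.natDegree - 1) (eraseLead_natDegree_le f)
  have hl : 0 < ‖f.leadingCoeff‖ := by
    rw [norm_pos_iff, Ne, leadingCoeff_eq_zero]
    rintro rfl
    simp at hd
  refine ⟨max 1 (max A ‖f.leadingCoeff‖⁻¹), le_max_left _ _, ?_⟩
  set c := max 1 (max A ‖f.leadingCoeff‖⁻¹) with hc
  have h1 : 1 ≤ c := le_max_left _ _
  have hAc : A ≤ c := (le_max_left _ _).trans (le_max_right _ _)
  have hlc : 1 ≤ c * ‖f.leadingCoeff‖ := by
    have : ‖f.leadingCoeff‖⁻¹ ≤ c := (le_max_right _ _).trans (le_max_right _ _)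
    rwa [inv_le_iff_one_le_mul₀ hl] at this
  intro z hz
  have hz1 : 1 ≤ ‖z‖ := by nlinarith
  have e : f.leadingCoeff * z ^ f.natDegree = eval z f - eval z f.eraseLead := by
    have h := congrArg (eval z) (eraseLead_add_C_mul_X_pow f)
    simp only [eval_add, eval_mul, eval_C, eval_pow, eval_X] at h
    rw [← h]
    ring
  have h2 : ‖f.leadingCoeff‖ * ‖z‖ ^ f.natDegree ≤ ‖eval z f‖ + ‖eval z f.eraseLead‖ := by
    rw [← norm_pow, ← norm_mul, e]
    exact norm_sub_le _ _
  have h3 := hA z ‖z‖ hz1 le_rfl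
  obtain ⟨m, hm⟩ : ∃ m, f.natDegree = m + 1 := ⟨f.natDegree - 1, by omega⟩
  rw [hm, Nat.add_sub_cancel] at h3
  rw [hm, pow_succ] at h2 ⊢
  have hp : 0 ≤ ‖z‖ ^ m := by positivity
  have h4 : c * (‖f.leadingCoeff‖ * (‖z‖ ^ m * ‖z‖)) ≤ c * (‖eval z f‖ + c * ‖z‖ ^ m) := by
    refine mul_le_mul_of_nonneg_left ?_ (by linarith)
    nlinarith
  have h5 : ‖z‖ ^ m * ‖z‖ ≤ c * (‖f.leadingCoeff‖ * (‖z‖ ^ m * ‖z‖)) := by
    rw [← mul_assoc]
    exact le_mul_of_one_le_left (by positivity) hlc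
  have h6 : 2 * c ^ 2 * ‖z‖ ^ m ≤ ‖z‖ ^ m * ‖z‖ := by nlinarith
  nlinarith

/-- the dominance of `u` over `v` persists under `f` -/
theorem dominanceC (f : ℂ[X]) (hd : 2 ≤ f.natDegree) :
    ∃ l : ℝ, 2 ≤ l ∧ ∀ (u v : ℂ) (M : ℝ), 1 ≤ M → ‖v‖ ≤ M → l * M ≤ ‖u‖ →
      ∀ k : ℕ, (fun z : ℂ => eval z f)^[k] u ≠ (fun z : ℂ => eval z f)^[k] v := by
  obtain ⟨A, hA0, hA⟩ := upperC f f.natDegree le_rfl
  obtain ⟨c₀, hc1, hc⟩ := lowerC f (by omega)
  set c := max c₀ A with hcdef
  have h0c : c₀ ≤ c := le_max_left _ _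
  have hAc : A ≤ c := le_max_right _ _
  have h1c : 1 ≤ c := hc1.trans h0c
  have hc3 : 1 ≤ c ^ 3 := one_le_pow₀ h1c
  have hc23 : c ^ 2 ≤ c ^ 3 := pow_le_pow_right₀ h1c (by norm_num)
  have h0c2 : c₀ ^ 2 ≤ c ^ 2 := pow_le_pow_left₀ (by linarith) h0c 2
  refine ⟨4 * c ^ 3, by linarith, ?_⟩
  intro u v M hM hv hu k
  induction k generalizing u v M with
  | zero =>
    intro h
    simp only [Function.iterate_zero, id_eq] at h
    rw [h] at hu
    nlinarith
  | succ k ih =>
    rw [Function.iterate_succ_apply, Function.iterate_succ_apply]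
    have hU : 2 * c₀ ^ 2 ≤ ‖u‖ := by nlinarith
    have h1 := hc u hU
    have h2 := hA v M hM hv
    have hpM : 1 ≤ M ^ f.natDegree := one_le_pow₀ hM
    have h3 : (4 * c ^ 3) ^ 2 * M ^ f.natDegree ≤ ‖u‖ ^ f.natDegree := by
      calc (4 * c ^ 3) ^ 2 * M ^ f.natDegree ≤ (4 * c ^ 3) ^ f.natDegree * M ^ f.natDegree :=
            mul_le_mul_of_nonneg_right (pow_le_pow_right₀ (by linarith) hd) (by positivity)
        _ = (4 * c ^ 3 * M) ^ f.natDegree := (mul_pow _ _ _).symm
        _ ≤ ‖u‖ ^ f.natDegree := pow_le_pow_left₀ (by positivity) hu _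
    have h4 : 2 * c₀ * ‖eval u f‖ ≤ 2 * c * ‖eval u f‖ :=
      mul_le_mul_of_nonneg_right (by linarith) (norm_nonneg _)
    have h5 : (4 * c ^ 3) ^ 2 * M ^ f.natDegree ≤ 2 * c * ‖eval u f‖ := h3.trans (h1.trans h4)
    refine ih (eval u f) (eval v f) (c * M ^ f.natDegree) ?_ ?_ ?_
    · nlinarith
    · exact h2.trans (mul_le_mul_of_nonneg_right hAc (by positivity))
    · have h6 : c * (4 * c ^ 3 * (c * M ^ f.natDegree)) ≤ c * ‖eval u f‖ := by
        have h7 : c * (4 * c ^ 3 * (c * M ^ f.natDegree)) ≤ 8 * c ^ 6 * M ^ f.natDegree := by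
          have h8 : c ^ 5 ≤ c ^ 6 := pow_le_pow_right₀ h1c (by norm_num)
          have h9 : 4 * c ^ 5 ≤ 8 * c ^ 6 := by
            have : 0 ≤ c ^ 6 := by positivity
            linarith
          calc c * (4 * c ^ 3 * (c * M ^ f.natDegree)) = 4 * c ^ 5 * M ^ f.natDegree := by ring
            _ ≤ 8 * c ^ 6 * M ^ f.natDegree := mul_le_mul_of_nonneg_right h9 (by positivity)
        have h10 : (4 * c ^ 3) ^ 2 * M ^ f.natDegree = 2 * (8 * c ^ 6 * M ^ f.natDegree) := by ring
        rw [h10] at h5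
        nlinarith
      exact le_of_mul_le_mul_left h6 (by linarith)

/-- the archimedean bound -/
theorem arch (f a b : ℂ[X]) (hd : 2 ≤ f.natDegree) (hab : a.natDegree < b.natDegree) :
    ∃ R : ℝ, ∀ (k : ℕ) (z : ℂ),
      (fun z : ℂ => eval z f)^[k] (eval z b) = (fun z : ℂ => eval z f)^[k] (eval z a) →
      ‖z‖ ≤ R := by
  obtain ⟨l, hl2, hl⟩ := dominanceC f hd
  obtain ⟨A, hA0, hA⟩ := upperC a (b.natDegree - 1) (by omega)
  obtain ⟨c, hc1, hc⟩ := lowerC b (by omega)
  refine ⟨2 * c ^ 2 + 2 * c * (l * (A + 1)) + 1, ?_⟩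
  intro k z h
  by_contra hz
  push Not at hz
  have hlA : 0 ≤ 2 * c * (l * (A + 1)) := by positivity
  have hc2 : 1 ≤ c ^ 2 := one_le_pow₀ hc1
  have hz1 : 1 ≤ ‖z‖ := by linarith
  obtain ⟨m, hm⟩ : ∃ m, b.natDegree = m + 1 := ⟨b.natDegree - 1, by omega⟩
  have hp1 : 1 ≤ ‖z‖ ^ m := one_le_pow₀ hz1
  have hAz := hA z ‖z‖ hz1 le_rfl
  have hcz := hc z (by linarith)
  rw [hm, Nat.add_sub_cancel] at hAz
  rw [hm, pow_succ] at hcz
  refine hl (eval z b) (eval z a) ((A + 1) * ‖z‖ ^ m) (by nlinarith) (by nlinarith) ?_ k h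
  have h6 : 2 * c * (l * ((A + 1) * ‖z‖ ^ m)) ≤ 2 * c * ‖eval z b‖ := by
    refine le_trans ?_ hcz
    have : 2 * c * (l * (A + 1)) ≤ ‖z‖ := by linarith
    nlinarith
  exact le_of_mul_le_mul_left h6 (by linarith)

/-! ### non-archimedean estimates -/

section nonarch

variable {L : Type*} [Field L] (w : AbsoluteValue L ℝ) (hw : ∀ x y : L, w (x + y) ≤ max (w x) (w y))

include hw

theorem sum_le_of_forall {ι : Type*} (s : Finset ι) (g : ι → L) (B : ℝ) (hB : 0 ≤ B)
    (h : ∀ i ∈ s, w (g i) ≤ B) : w (∑ i ∈ s, g i) ≤ B := by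
  classical
  induction s using Finset.induction_on with
  | empty => simpa using hB
  | insert i s hi ih =>
    rw [Finset.sum_insert hi]
    refine (hw _ _).trans (max_le (h i (Finset.mem_insert_self i s)) ?_)
    exact ih fun j hj => h j (Finset.mem_insert_of_mem hj)

theorem upperN (P : L[X]) (c : ℝ) (hc0 : 0 ≤ c) (hc : ∀ i, w (P.coeff i) ≤ c) (N : ℕ)
    (hN : P.natDegree ≤ N) (z : L) (M : ℝ) (hM : 1 ≤ M) (hz : w z ≤ M) :
    w (eval z P) ≤ c * M ^ N := by
  rw [eval_eq_sum_range]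
  refine sum_le_of_forall w hw _ _ _ (by positivity) fun i hi => ?_
  have hi' : i ≤ N := by
    have := Finset.mem_range.mp hi
    omega
  rw [map_mul, map_pow]
  refine mul_le_mul (hc i) ?_ (pow_nonneg (apply_nonneg w z) i) hc0
  exact (pow_le_pow_left₀ (apply_nonneg w z) hz i).trans (pow_le_pow_right₀ hM hi')

theorem lowerN (f : L[X]) (hd : 1 ≤ f.natDegree) (c : ℝ) (hc1 : 1 ≤ c)
    (hc : ∀ i, w (f.coeff i) ≤ c) (hl : 1 ≤ c * w f.leadingCoeff) (z : L) (hz : c ^ 2 < w z) :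
    w z ^ f.natDegree ≤ c * w (eval z f) := by
  have hz1 : 1 ≤ w z := by nlinarith
  have e : f.leadingCoeff * z ^ f.natDegree = eval z f + -eval z f.eraseLead := by
    have h := congrArg (eval z) (eraseLead_add_C_mul_X_pow f)
    simp only [eval_add, eval_mul, eval_C, eval_pow, eval_X] at h
    rw [← h]
    ring
  have hce : ∀ i, w (f.eraseLead.coeff i) ≤ c := by
    intro i
    rw [eraseLead_coeff]
    split_ifs
    · rw [map_zero]; linarith
    · exact hc i
  have h3 := upperN w hw f.eraseLead c (by linarith) hce (f.natDegree - 1)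
    (eraseLead_natDegree_le f) z (w z) hz1 le_rfl
  have h2 : w f.leadingCoeff * w z ^ f.natDegree ≤ max (w (eval z f)) (w (eval z f.eraseLead)) := by
    rw [← map_pow, ← map_mul, e]
    refine (hw _ _).trans ?_
    rw [AbsoluteValue.map_neg]
  obtain ⟨m, hm⟩ : ∃ m, f.natDegree = m + 1 := ⟨f.natDegree - 1, by omega⟩
  rw [hm, Nat.add_sub_cancel] at h3
  rw [hm, pow_succ] at h2 ⊢
  have hp : 0 < w z ^ m := by positivity
  have h5 : w z ^ m * w z ≤ c * (w f.leadingCoeff * (w z ^ m * w z)) := by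
    rw [← mul_assoc]
    exact le_mul_of_one_le_left (by positivity) hl
  rcases le_max_iff.mp h2 with h | h
  · exact h5.trans (mul_le_mul_of_nonneg_left h (by linarith))
  · exfalso
    have h6 : c * (w f.leadingCoeff * (w z ^ m * w z)) ≤ c * (c * w z ^ m) :=
      mul_le_mul_of_nonneg_left (h.trans h3) (by linarith)
    nlinarith

theorem dominanceN (f : L[X]) (hd : 2 ≤ f.natDegree) (c : ℝ) (hc1 : 1 ≤ c)
    (hc : ∀ i, w (f.coeff i) ≤ c) (hl : 1 ≤ c * w f.leadingCoeff) (k : ℕ) :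
    ∀ (u v : L) (M : ℝ), 1 ≤ M → w v ≤ M → c ^ 3 * M < w u →
      (fun z : L => eval z f)^[k] u ≠ (fun z : L => eval z f)^[k] v := by
  have hc3 : 1 ≤ c ^ 3 := one_le_pow₀ hc1
  have hc23 : c ^ 2 ≤ c ^ 3 := pow_le_pow_right₀ hc1 (by norm_num)
  induction k with
  | zero =>
    intro u v M hM hv hu h
    simp only [Function.iterate_zero, id_eq] at h
    rw [h] at hu
    nlinarith
  | succ k ih =>
    intro u v M hM hv hu
    rw [Function.iterate_succ_apply, Function.iterate_succ_apply]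
    have hU : c ^ 2 < w u := by nlinarith
    have h1 := lowerN w hw f (by omega) c hc1 hc hl u hU
    have h2 := upperN w hw f c (by linarith) hc f.natDegree le_rfl v M hM hv
    have hpM : 1 ≤ M ^ f.natDegree := one_le_pow₀ hM
    have h3 : (c ^ 3) ^ 2 * M ^ f.natDegree < w u ^ f.natDegree := by
      calc (c ^ 3) ^ 2 * M ^ f.natDegree ≤ (c ^ 3) ^ f.natDegree * M ^ f.natDegree :=
            mul_le_mul_of_nonneg_right (pow_le_pow_right₀ hc3 hd) (by positivity)
        _ = (c ^ 3 * M) ^ f.natDegree := (mul_pow _ _ _).symm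
        _ < w u ^ f.natDegree := pow_lt_pow_left₀ hu (by positivity) (by omega)
    refine ih (eval u f) (eval v f) (c * M ^ f.natDegree) (by nlinarith) h2 ?_
    have h6 : c * (c ^ 3 * (c * M ^ f.natDegree)) < c * w (eval u f) := by
      have h8 : c ^ 5 ≤ c ^ 6 := pow_le_pow_right₀ hc1 (by norm_num)
      calc c * (c ^ 3 * (c * M ^ f.natDegree)) = c ^ 5 * M ^ f.natDegree := by ring
        _ ≤ c ^ 6 * M ^ f.natDegree := mul_le_mul_of_nonneg_right h8 (by positivity)
        _ = (c ^ 3) ^ 2 * M ^ f.natDegree := by ring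
        _ < c * w (eval u f) := h3.trans_le h1
    exact lt_of_mul_lt_mul_left h6 (by linarith)

theorem nonarch (f a b : L[X]) (hd : 2 ≤ f.natDegree) (hab : a.natDegree < b.natDegree) (c : ℝ)
    (hc1 : 1 ≤ c) (hcf : ∀ i, w (f.coeff i) ≤ c) (hlf : 1 ≤ c * w f.leadingCoeff)
    (hca : ∀ i, w (a.coeff i) ≤ c) (hcb : ∀ i, w (b.coeff i) ≤ c)
    (hlb : 1 ≤ c * w b.leadingCoeff) (k : ℕ) (z : L)
    (h : (fun z : L => eval z f)^[k] (eval z b) = (fun z : L => eval z f)^[k] (eval z a)) :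
    w z ≤ c ^ 5 := by
  by_contra hz
  push Not at hz
  have hc5 : 1 ≤ c ^ 5 := one_le_pow₀ hc1
  have hc25 : c ^ 2 ≤ c ^ 5 := pow_le_pow_right₀ hc1 (by norm_num)
  have hz1 : 1 ≤ w z := by linarith
  obtain ⟨m, hm⟩ : ∃ m, b.natDegree = m + 1 := ⟨b.natDegree - 1, by omega⟩
  have hp1 : 1 ≤ w z ^ m := one_le_pow₀ hz1
  have h2 := upperN w hw a c (by linarith) hca m (by omega) z (w z) hz1 le_rfl
  have h1 := lowerN w hw b (by omega) c hc1 hcb hlb z (by linarith)
  rw [hm, pow_succ] at h1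
  refine dominanceN w hw f hd c hc1 hcf hlf k (eval z b) (eval z a) (c * w z ^ m) (by nlinarith)
    h2 ?_ h
  have h6 : c * (c ^ 3 * (c * w z ^ m)) < c * w (eval z b) := by
    calc c * (c ^ 3 * (c * w z ^ m)) = c ^ 5 * w z ^ m := by ring
      _ < w z ^ m * w z := by nlinarith
      _ ≤ c * w (eval z b) := h1
  exact lt_of_mul_lt_mul_left h6 (by linarith)

end nonarch

/-! ### heights -/

section heights

variable {L : Type*} [Field L] [NumberField L]

theorem finitePlace_le_one (w : FinitePlace L) (x : L) (hx : IsIntegral ℤ x) : w x ≤ 1 := by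
  have := FinitePlace.norm_le_one L w.maximalIdeal (⟨x, hx⟩ : 𝓞 L)
  rw [← FinitePlace.norm_embedding_eq]
  exact this

/-- the height of an element that is integral at the finite places -/
theorem height (t : L) (ht : ∀ w : FinitePlace L, w t ≤ 1) (R : ℝ)
    (hR : 1 ≤ R) (h : ∀ φ : L →+* ℂ, ‖φ t‖ ≤ R) :
    Height.logHeight₁ t ≤ Real.log R * Module.finrank ℚ L := by
  rw [NumberField.logHeight₁_eq]
  have hfin : (∑ᶠ v : FinitePlace L, Real.posLog (v t)) = 0 := by
    apply finsum_eq_zero_of_forall_eq_zero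
    intro v
    apply Real.posLog_eq_zero_iff _ |>.mpr
    rw [abs_of_nonneg (apply_nonneg v t)]
    exact ht v
  rw [hfin, add_zero, ← InfinitePlace.sum_mult_eq, Nat.cast_sum, Finset.mul_sum]
  refine Finset.sum_le_sum fun v _ => ?_
  rw [mul_comm (Real.log R)]
  refine mul_le_mul_of_nonneg_left ?_ (Nat.cast_nonneg _)
  rw [← Real.posLog_eq_log (by rw [abs_of_nonneg (by linarith)]; exact hR)]
  apply Real.posLog_le_posLog (apply_nonneg v t)
  rw [← InfinitePlace.norm_embedding_eq]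
  exact h v.embedding

/-- `x` has denominator dividing `N` at the finite places and size at most `R` at the others -/
def Bd (N : ℕ) (R : ℝ) (x : L) : Prop :=
  (∀ w : FinitePlace L, w (N : L) * w x ≤ 1) ∧ ∀ φ : L →+* ℂ, ‖φ x‖ ≤ R

theorem height_of_bd (N : ℕ) (hN : 1 ≤ N) (R : ℝ) (x : L) (h : Bd N R x) :
    Height.logHeight₁ x ≤ (Real.log (max 1 (N * R)) + Real.log N) * Module.finrank ℚ L := by
  have hN0 : (N : L) ≠ 0 := by
    rw [Nat.cast_ne_zero]
    omega
  have e : x = (N : L) * x * (N : L)⁻¹ := by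
    field_simp
  have h1 : Height.logHeight₁ ((N : L) * x) ≤
      Real.log (max 1 (N * R)) * Module.finrank ℚ L := by
    refine height _ (fun w => ?_) _ (le_max_left _ _) fun φ => ?_
    · rw [map_mul]
      exact h.1 w
    · rw [map_mul, norm_mul, map_natCast, Complex.norm_natCast]
      exact (mul_le_mul_of_nonneg_left (h.2 φ) (Nat.cast_nonneg _)).trans (le_max_right _ _)
  have h2 : Height.logHeight₁ (N : L) ≤ Real.log N * Module.finrank ℚ L := by
    refine height _ (fun w => finitePlace_le_one w _ ?_) _ (by exact_mod_cast hN) fun φ => ?_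
    · exact isIntegral_algebraMap (R := ℤ) (x := (N : ℤ)) |> fun h => by simpa using h
    · rw [map_natCast, Complex.norm_natCast]
  calc Height.logHeight₁ x = Height.logHeight₁ ((N : L) * x * (N : L)⁻¹) := by rw [← e]
    _ ≤ Height.logHeight₁ ((N : L) * x) + Height.logHeight₁ (N : L)⁻¹ :=
        Height.logHeight₁_mul_le _ _
    _ = Height.logHeight₁ ((N : L) * x) + Height.logHeight₁ (N : L) := by
        rw [Height.logHeight₁_inv]
    _ ≤ _ := by
        rw [add_mul]
        exact add_le_add h1 h2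

end heights

section clear

variable {K : Type*} [Field K] [NumberField K]

theorem clear_finset (s : Finset K) :
    ∃ N : ℕ, 1 ≤ N ∧ ∀ x ∈ s, IsIntegral ℤ ((N : K) * x) := by
  have : Algebra.IsAlgebraic ℤ K := (IsFractionRing.comap_isAlgebraic_iff (K := ℚ)).mpr inferInstance
  obtain ⟨y, hy, h⟩ := Algebra.IsAlgebraic.exists_integral_multiples ℤ s
  refine ⟨y.natAbs, by have := Int.natAbs_pos.mpr hy; omega, fun x hx => ?_⟩
  have h1 := h x hx
  rw [zsmul_eq_mul] at h1
  rcases Int.natAbs_eq y with h2 | h2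
  · rw [h2] at h1
    simpa using h1
  · rw [h2] at h1
    have := h1.neg
    simpa using this

theorem clear_poly (P : K[X]) :
    ∃ N : ℕ, 1 ≤ N ∧ (∀ i, IsIntegral ℤ ((N : K) * P.coeff i)) ∧
      IsIntegral ℤ ((N : K) * P.leadingCoeff⁻¹) := by
  classical
  obtain ⟨N, hN, h⟩ := clear_finset
    (insert P.leadingCoeff⁻¹ ((Finset.range (P.natDegree + 1)).image P.coeff))
  refine ⟨N, hN, fun i => ?_, h _ (Finset.mem_insert_self _ _)⟩
  by_cases hi : i ≤ P.natDegree
  · refine h _ (Finset.mem_insert_of_mem (Finset.mem_image.mpr ⟨i, ?_, rfl⟩))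
    exact Finset.mem_range.mpr (by omega)
  · rw [coeff_eq_zero_of_natDegree_lt (by omega), mul_zero]
    exact isIntegral_zero

theorem finite_const {α : Type*} [Finite α] (R : α → ℝ) : ∃ B : ℝ, ∀ i, R i ≤ B := by
  obtain ⟨B, hB⟩ := (Set.finite_range R).bddAbove
  exact ⟨B, fun i => hB ⟨i, rfl⟩⟩

end clear

/-! ### the equation -/

section main

variable {K : Type*} [Field K] [NumberField K]

omit [NumberField K] in
/-- the absolute values at a finite place of the coefficients, from a common denominator -/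
theorem coeff_le {L : Type*} [Field L] [NumberField L] [Algebra K L] (P : K[X]) (N : ℕ)
    (hN : 1 ≤ N) (h : ∀ i, IsIntegral ℤ ((N : K) * P.coeff i))
    (hl : IsIntegral ℤ ((N : K) * P.leadingCoeff⁻¹)) (w : FinitePlace L) :
    0 < w (N : L) ∧ 1 ≤ (w (N : L))⁻¹ ∧
      (∀ i, w ((P.map (algebraMap K L)).coeff i) ≤ (w (N : L))⁻¹) ∧
      (P ≠ 0 → 1 ≤ (w (N : L))⁻¹ * w (P.map (algebraMap K L)).leadingCoeff) := by
  have hN0 : (N : L) ≠ 0 := by
    rw [Nat.cast_ne_zero]
    omega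
  have hw0 : 0 < w (N : L) := FinitePlace.pos_iff.mpr hN0
  have hw1 : w (N : L) ≤ 1 := by
    refine finitePlace_le_one w _ ?_
    exact isIntegral_algebraMap (R := ℤ) (x := (N : ℤ)) |> fun h => by simpa using h
  refine ⟨hw0, (one_le_inv₀ hw0).mpr hw1, fun i => ?_, fun hP => ?_⟩
  · rw [← one_div, le_div_iff₀' hw0, coeff_map, ← map_mul]
    refine finitePlace_le_one w _ ?_
    have := (h i).map (IsScalarTower.toAlgHom ℤ K L)
    simpa using this
  · have h1 : w (N : L) * w (algebraMap K L P.leadingCoeff⁻¹) ≤ 1 := by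
      rw [← map_mul]
      refine finitePlace_le_one w _ ?_
      have := hl.map (IsScalarTower.toAlgHom ℤ K L)
      simpa using this
    have hl0 : 0 < w (algebraMap K L P.leadingCoeff) := by
      rw [FinitePlace.pos_iff, Ne, map_eq_zero, leadingCoeff_eq_zero]
      exact hP
    rw [map_inv₀, map_inv₀, ← div_eq_mul_inv, div_le_one hl0] at h1
    rw [leadingCoeff_map, ← div_eq_inv_mul, one_le_div hw0]
    exact h1

theorem bd_of_eq (f a b : K[X]) (hd : 2 ≤ f.natDegree) (hab : a.natDegree < b.natDegree) :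
    ∃ (N : ℕ) (R : ℝ), 1 ≤ N ∧
      ∀ (L : Type*) [Field L] [NumberField L] [Algebra K L] (k : ℕ) (t : L),
      (fun z : L => aeval z f)^[k] (aeval t b) = (fun z : L => aeval z f)^[k] (aeval t a) →
      Bd N R t := by
  have hf0 : f ≠ 0 := by
    rintro rfl
    simp at hd
  have hb0 : b ≠ 0 := by
    rintro rfl
    simp at hab
  obtain ⟨Nf, hNf, hf1, hf2⟩ := clear_poly f
  obtain ⟨Na, hNa, ha1, ha2⟩ := clear_poly a
  obtain ⟨Nb, hNb, hb1, hb2⟩ := clear_poly b
  have harch : ∀ σ : K →+* ℂ, ∃ R : ℝ, ∀ (k : ℕ) (z : ℂ),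
      (fun z : ℂ => eval z (f.map σ))^[k] (eval z (b.map σ)) =
        (fun z : ℂ => eval z (f.map σ))^[k] (eval z (a.map σ)) → ‖z‖ ≤ R := fun σ =>
    arch (f.map σ) (a.map σ) (b.map σ) (by rwa [natDegree_map]) (by rwa [natDegree_map, natDegree_map])
  choose R hR using harch
  obtain ⟨B, hB⟩ := finite_const R
  have hint : ∀ (m n : ℕ) (x : K), IsIntegral ℤ ((m : K) * x) →
      IsIntegral ℤ (((m * n : ℕ) : K) * x) := by
    intro m n x hx
    have hn : IsIntegral ℤ (n : K) :=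
      isIntegral_algebraMap (R := ℤ) (x := (n : ℤ)) |> fun h => by simpa using h
    have := hn.mul hx
    rw [← mul_assoc] at this
    rwa [Nat.cast_mul, mul_comm (m : K)]
  set N : ℕ := Nf * (Na * Nb) with hNdef
  have hN : 1 ≤ N := by
    have : 0 < Nf * (Na * Nb) := by positivity
    omega
  have hNa' : N = Na * (Nf * Nb) := by rw [hNdef]; ring
  have hNb' : N = Nb * (Nf * Na) := by rw [hNdef]; ring
  refine ⟨N ^ 5, B, one_le_pow₀ hN, ?_⟩
  intro L _ _ _ k t h
  refine ⟨fun w => ?_, fun φ => ?_⟩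
  · obtain ⟨hw0, hw1, hcf, hlf⟩ := coeff_le (L := L) f N hN (fun i => hint _ _ _ (hf1 i))
      (hint _ _ _ hf2) w
    obtain ⟨-, -, hca, -⟩ := coeff_le (L := L) a N hN (fun i => hNa' ▸ hint _ _ _ (ha1 i))
      (hNa' ▸ hint _ _ _ ha2) w
    obtain ⟨-, -, hcb, hlb⟩ := coeff_le (L := L) b N hN (fun i => hNb' ▸ hint _ _ _ (hb1 i))
      (hNb' ▸ hint _ _ _ hb2) w
    have key := nonarch w.val (fun x y => FinitePlace.add_le w x y) (f.map (algebraMap K L))
      (a.map (algebraMap K L)) (b.map (algebraMap K L)) (by rwa [natDegree_map])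
      (by rwa [natDegree_map, natDegree_map]) (w (N : L))⁻¹ hw1 hcf (hlf hf0) hca hcb (hlb hb0) k t
      (by simpa only [eval_map_algebraMap] using h)
    have key' : w t ≤ (w (N : L))⁻¹ ^ 5 := key
    rw [Nat.cast_pow, map_pow]
    calc w (N : L) ^ 5 * w t ≤ w (N : L) ^ 5 * (w (N : L))⁻¹ ^ 5 :=
          mul_le_mul_of_nonneg_left key' (by positivity)
      _ = 1 := by rw [← mul_pow, mul_inv_cancel₀ hw0.ne', one_pow]
  · refine (hR (φ.comp (algebraMap K L)) k (φ t) ?_).trans (hB _)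
    have key : ∀ (P : K[X]) (x : L), φ (aeval x P) =
        eval (φ x) (P.map (φ.comp (algebraMap K L))) := fun P x => by
      rw [aeval_def, hom_eval₂, eval_map]
    have hk : ∀ (k : ℕ) (x : L), φ ((fun z : L => aeval z f)^[k] x) =
        (fun z : ℂ => eval z (f.map (φ.comp (algebraMap K L))))^[k] (φ x) := by
      intro k
      induction k with
      | zero => intro x; rfl
      | succ k ih =>
        intro x
        rw [Function.iterate_succ_apply, Function.iterate_succ_apply, ih, key]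
    rw [← key, ← key, ← hk, ← hk, h]

/-- values of a polynomial at bounded points are bounded -/
theorem bd_value (P : K[X]) (N : ℕ) (hN : 1 ≤ N) (R : ℝ) :
    ∃ (N' : ℕ) (R' : ℝ), 1 ≤ N' ∧
      ∀ (L : Type*) [Field L] [NumberField L] [Algebra K L] (t : L), Bd N R t →
        Bd N' R' (aeval t P) := by
  obtain ⟨NP, hNP, h1, h2⟩ := clear_poly P
  have harch : ∀ σ : K →+* ℂ, ∃ R' : ℝ, ∀ z : ℂ, ‖z‖ ≤ R → ‖eval z (P.map σ)‖ ≤ R' := by
    intro σ
    obtain ⟨A, hA0, hA⟩ := upperC (P.map σ) _ le_rfl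
    exact ⟨A * max 1 R ^ (P.map σ).natDegree, fun z hz =>
      hA z _ (le_max_left _ _) (hz.trans (le_max_right _ _))⟩
  choose R' hR' using harch
  obtain ⟨B, hB⟩ := finite_const R'
  refine ⟨NP * N ^ P.natDegree, B, Nat.one_le_iff_ne_zero.mpr (by positivity), ?_⟩
  intro L _ _ _ t ht
  refine ⟨fun w => ?_, fun φ => ?_⟩
  · obtain ⟨hw0, hw1, hc, -⟩ := coeff_le (L := L) P NP hNP h1 h2 w
    have hN0 : (N : L) ≠ 0 := by
      rw [Nat.cast_ne_zero]
      omega
    have hwN0 : 0 < w (N : L) := FinitePlace.pos_iff.mpr hN0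
    have hwN1 : w (N : L) ≤ 1 := by
      refine finitePlace_le_one w _ ?_
      exact isIntegral_algebraMap (R := ℤ) (x := (N : ℤ)) |> fun h => by simpa using h
    have hwt : w t ≤ (w (N : L))⁻¹ := by
      rw [← one_div, le_div_iff₀' hwN0]
      exact ht.1 w
    have key := upperN w.val (fun x y => FinitePlace.add_le w x y) (P.map (algebraMap K L))
      (w (NP : L))⁻¹ (by positivity) hc P.natDegree (by rw [natDegree_map]) t (w (N : L))⁻¹
      ((one_le_inv₀ hwN0).mpr hwN1) hwt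
    rw [eval_map_algebraMap] at key
    have key' : w (aeval t P) ≤ (w (NP : L))⁻¹ * (w (N : L))⁻¹ ^ P.natDegree := key
    rw [Nat.cast_mul, Nat.cast_pow, map_mul, map_pow]
    calc w (NP : L) * w (N : L) ^ P.natDegree * w (aeval t P)
        ≤ w (NP : L) * w (N : L) ^ P.natDegree *
            ((w (NP : L))⁻¹ * (w (N : L))⁻¹ ^ P.natDegree) :=
          mul_le_mul_of_nonneg_left key' (by positivity)
      _ = (w (NP : L) * (w (NP : L))⁻¹) * (w (N : L) * (w (N : L))⁻¹) ^ P.natDegree := by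
          rw [mul_pow]; ring
      _ = 1 := by rw [mul_inv_cancel₀ hw0.ne', mul_inv_cancel₀ hwN0.ne', one_pow, one_mul]
  · have h3 := hR' (φ.comp (algebraMap K L)) (φ t) (ht.2 φ)
    rw [aeval_def, hom_eval₂, ← eval_map]
    exact h3.trans (hB _)

/-- the equation `F^q (b t) = g (F^q (a t))` with `g` commuting with `F` -/
theorem bd_of_comm (F g a b : K[X]) (hd : 2 ≤ F.natDegree) (hg : g.comp F = F.comp g)
    (hdeg : g.natDegree * a.natDegree ≠ b.natDegree) :
    ∃ (N : ℕ) (R : ℝ), 1 ≤ N ∧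
      ∀ (L : Type*) [Field L] [NumberField L] [Algebra K L] (q : ℕ) (t : L),
      (fun z : L => aeval z F)^[q] (aeval t b) =
        aeval ((fun z : L => aeval z F)^[q] (aeval t a)) g →
      Bd N R t := by
  have hcomm : ∀ (L : Type _) [Field L] [NumberField L] [Algebra K L] (q : ℕ) (z : L),
      aeval ((fun z : L => aeval z F)^[q] z) g =
        (fun z : L => aeval z F)^[q] (aeval z g) := by
    intro L _ _ _ q
    induction q with
    | zero => intro z; rfl
    | succ q ih =>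
      intro z
      rw [Function.iterate_succ_apply, Function.iterate_succ_apply, ih]
      congr 1
      have := congrArg (aeval z) hg
      rwa [aeval_comp, aeval_comp] at this
  rw [← natDegree_comp] at hdeg
  rcases lt_or_gt_of_ne hdeg with h | h
  · obtain ⟨N, R, hN, h1⟩ := bd_of_eq F (g.comp a) b hd h
    refine ⟨N, R, hN, ?_⟩
    intro L _ _ _ q t ht
    rw [hcomm, ← aeval_comp] at ht
    exact h1 L q t ht
  · obtain ⟨N, R, hN, h1⟩ := bd_of_eq F b (g.comp a) hd h
    refine ⟨N, R, hN, ?_⟩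
    intro L _ _ _ q t ht
    rw [hcomm, ← aeval_comp] at ht
    exact h1 L q t ht.symm

end main

/-- **Main theorem.**  Let `f` be a polynomial of degree at least `2` over a number field `K`, and
`g` a polynomial that commutes with the iterate `f^m`, so that the hypersurface
`W : x_j = g(x_i)` of `(ℙ¹)ⁿ` is periodic.  Let `C` be the curve `t ↦ (P_1(t), …, P_n(t))`, with
`deg g * deg P_i ≠ deg P_j`.  Then the points of `C` that lie in `φ^{-k}(W)` for some `k ≥ 0` have
bounded height: there is one `B` such that `h(t) ≤ B` and `h(P_l(t)) ≤ B` for every `l`, for every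
algebraic `t` and every `k ≥ 0` with `f^k(P_j(t)) = g(f^k(P_i(t)))`.  Here `h` is the absolute
logarithmic height: for `x` in a number field `L`, `Height.logHeight₁ x = [L : ℚ] * h(x)`. -/
theorem result {K : Type*} [Field K] [NumberField K] (f g : K[X]) (hd : 2 ≤ f.natDegree)
    (m : ℕ) (hm : 1 ≤ m) (hg : g.comp (f.comp^[m] X) = (f.comp^[m] X).comp g)
    {n : ℕ} (P : Fin n → K[X]) (i j : Fin n)
    (hdeg : g.natDegree * (P i).natDegree ≠ (P j).natDegree) :
    ∃ B : ℝ, ∀ (L : Type*) [Field L] [NumberField L] [Algebra K L] (k : ℕ) (t : L),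
      (fun z : L => aeval z f)^[k] (aeval t (P j)) =
        aeval ((fun z : L => aeval z f)^[k] (aeval t (P i))) g →
      Height.logHeight₁ t ≤ B * Module.finrank ℚ L ∧
        ∀ l : Fin n, Height.logHeight₁ (aeval t (P l)) ≤ B * Module.finrank ℚ L := by
  -- the iterate `F = f^m` and the curves `f^r ∘ P`, for `r < m`
  have hF : 2 ≤ (f.comp^[m] X).natDegree := by
    rw [natDegree_iterate_comp, natDegree_X, mul_one]
    exact hd.trans (Nat.le_self_pow (by omega) _)
  have hr : ∀ r : Fin m, ∃ (N : ℕ) (R : ℝ), 1 ≤ N ∧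
      ∀ (L : Type _) [Field L] [NumberField L] [Algebra K L] (q : ℕ) (t : L),
      (fun z : L => aeval z (f.comp^[m] X))^[q] (aeval t (f.comp^[(r : ℕ)] (P j))) =
        aeval ((fun z : L => aeval z (f.comp^[m] X))^[q] (aeval t (f.comp^[(r : ℕ)] (P i)))) g →
      Bd N R t := by
    intro r
    refine bd_of_comm (f.comp^[m] X) g (f.comp^[(r : ℕ)] (P i)) (f.comp^[(r : ℕ)] (P j)) hF hg ?_
    rw [natDegree_iterate_comp, natDegree_iterate_comp, mul_left_comm]
    intro h
    exact hdeg (Nat.eq_of_mul_eq_mul_left (pow_pos (by omega) _) h)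
  choose N R hN hNR using hr
  have hval : ∀ (r : Fin m) (l : Fin n), ∃ (N' : ℕ) (R' : ℝ), 1 ≤ N' ∧
      ∀ (L : Type _) [Field L] [NumberField L] [Algebra K L] (t : L), Bd (N r) (R r) t →
        Bd N' R' (aeval t (P l)) := fun r l => bd_value (P l) (N r) (hN r) (R r)
  choose N' R' hN' hNR' using hval
  obtain ⟨B₁, hB₁⟩ := finite_const fun r : Fin m =>
    Real.log (max 1 (N r * R r)) + Real.log (N r)
  obtain ⟨B₂, hB₂⟩ := finite_const fun r : Fin m × Fin n =>
    Real.log (max 1 (N' r.1 r.2 * R' r.1 r.2)) + Real.log (N' r.1 r.2)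
  refine ⟨max B₁ B₂, ?_⟩
  intro L _ _ _ k t h
  have hit : ∀ (s : ℕ) (Q : K[X]), aeval t (f.comp^[s] Q) =
      (fun z : L => aeval z f)^[s] (aeval t Q) := fun s Q => iterate_comp_eval₂ _ s t
  have hitX : ∀ z : L, aeval z (f.comp^[m] X) = (fun z : L => aeval z f)^[m] z := by
    intro z
    have := iterate_comp_eval₂ (p := f) (q := X) (algebraMap K L) m z
    rw [eval₂_X] at this
    exact this
  have hk : ∀ z : L, (fun z : L => aeval z (f.comp^[m] X))^[k / m]
      ((fun z : L => aeval z f)^[k % m] z) = (fun z : L => aeval z f)^[k] z := by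
    intro z
    have e : (fun z : L => aeval z (f.comp^[m] X)) = (fun z : L => aeval z f)^[m] :=
      funext hitX
    rw [e, ← Function.iterate_mul, ← Function.iterate_add_apply, Nat.div_add_mod]
  have hb : Bd (N ⟨k % m, Nat.mod_lt k hm⟩) (R ⟨k % m, Nat.mod_lt k hm⟩) t := by
    refine hNR ⟨k % m, Nat.mod_lt k hm⟩ L (k / m) t ?_
    simp only [hit, hk]
    exact h
  have hfr : (0 : ℝ) ≤ Module.finrank ℚ L := Nat.cast_nonneg _
  refine ⟨?_, fun l => ?_⟩
  · refine (height_of_bd _ (hN _) _ t hb).trans (mul_le_mul_of_nonneg_right ?_ hfr)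
    exact (hB₁ _).trans (le_max_left _ _)
  · refine (height_of_bd _ (hN' _ l) _ _ (hNR' _ l L t hb)).trans
      (mul_le_mul_of_nonneg_right ?_ hfr)
    exact (hB₂ (⟨k % m, Nat.mod_lt k hm⟩, l)).trans (le_max_right _ _)

end Pool.Agent.Lib.MP_ab6cf3_nt.Variants.UnequalDegrees
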